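import Mathlib

set_option autoImplicit false

namespace Pool.Agent.H.MP_13da68_co

/-- `S` tiles `ℤ^d` by translations: for some `T`, every `x` is `s + t` with `s ∈ S`, `t ∈ T` in
exactly one way. -/
def Tiles {d : ℕ} (S : Finset (Fin d → ℤ)) : Prop :=
  ∃ T : Set (Fin d → ℤ), ∀ x : Fin d → ℤ,
    ∃! p : (Fin d → ℤ) × (Fin d → ℤ), p.1 ∈ S ∧ p.2 ∈ T ∧ x = p.1 + p.2

/-- the cube `[n]^d` -/
noncomputable def cube (n d : ℕ) : Finset (Fin d → ℤ) :=
  Fintype.piFinset fun _ => Finset.Icc (1 : ℤ) n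

open Classical in
/-- the number of subsets of `[n]^d` that tile `ℤ^d` by translations -/
noncomputable def t (n d : ℕ) : ℕ := ((cube n d).powerset.filter Tiles).card

end Pool.Agent.H.MP_13da68_co
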