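import Mathlib

set_option autoImplicit false

namespace Pool.Agent.H.MP_13da68_co

open Finset

variable {d : ℕ}

def row (D : Fin d → ℤ) (A : Fin d → Fin d → ℤ) (i : Fin d) : Fin d → ℤ :=
  fun j => if j = i then D i else if i < j then A i j else 0

def InL (D : Fin d → ℤ) (A : Fin d → Fin d → ℤ) (τ : Fin d → ℤ) : Prop :=
  ∃ c : Fin d → ℤ, τ = ∑ i, c i • row D A i

variable {D : Fin d → ℤ} {A : Fin d → Fin d → ℤ}

lemma InL.add {a b : Fin d → ℤ} (ha : InL D A a) (hb : InL D A b) : InL D A (a + b) := by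
  obtain ⟨c, rfl⟩ := ha
  obtain ⟨e, rfl⟩ := hb
  exact ⟨c + e, by simp [add_smul, sum_add_distrib]⟩

lemma InL.smul {a : Fin d → ℤ} (q : ℤ) (ha : InL D A a) : InL D A (q • a) := by
  obtain ⟨c, rfl⟩ := ha
  exact ⟨q • c, by simp [smul_sum, mul_smul]⟩

lemma InL.neg {a : Fin d → ℤ} (ha : InL D A a) : InL D A (-a) := by
  simpa using ha.smul (-1)

lemma InL.sub {a b : Fin d → ℤ} (ha : InL D A a) (hb : InL D A b) : InL D A (a - b) := by
  rw [sub_eq_add_neg]; exact ha.add hb.neg

lemma InL.of_eq {a b : Fin d → ℤ} (ha : InL D A a) (h : b = a) : InL D A b := h ▸ ha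

lemma inL_row (k : Fin d) : InL D A (row D A k) :=
  ⟨Pi.single k 1, by
    rw [sum_eq_single k] <;> simp +contextual [Pi.single_apply]⟩

lemma inL_zero : InL D A 0 := ⟨0, by simp⟩

lemma coord (c : Fin d → ℤ) (j : Fin d) (h : ∀ i, i < j → c i = 0) :
    (∑ i, c i • row D A i) j = c j * D j := by
  rw [Finset.sum_apply, sum_eq_single j]
  · simp [row]
  · intro i _ hi
    rcases lt_or_gt_of_ne hi with h1 | h1
    · simp [h i h1]
    · simp [row, hi.symm, not_lt.2 h1.le]
  · simp

lemma mul_small {c e : ℤ} (h : |c * e| < e) : c = 0 := by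
  by_contra hc
  have he : 0 < e := lt_of_le_of_lt (abs_nonneg _) h
  rw [abs_mul, abs_of_pos he] at h
  have : 1 ≤ |c| := Int.one_le_abs hc
  nlinarith

lemma coef_zero (c : Fin d → ℤ) (k : ℕ)
    (h : ∀ j : Fin d, j.val < k → |(∑ i, c i • row D A i) j| < D j) :
    ∀ j : Fin d, j.val < k → c j = 0 := by
  intro j
  induction j using WellFoundedLT.induction with
  | ind j ih =>
    intro hj
    have := h j hj
    rw [coord c j fun i hi => ih i hi (lt_trans hi hj)] at this
    exact mul_small this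

lemma small_zero {τ : Fin d → ℤ} (h : InL D A τ) (hs : ∀ j, |τ j| < D j) : τ = 0 := by
  obtain ⟨c, rfl⟩ := h
  have := coef_zero (D := D) (A := A) c d fun j _ => hs j
  exact sum_eq_zero fun i _ => by rw [this i i.2, zero_smul]

lemma exists_red (hD : ∀ j, 0 < D j) (x : Fin d → ℤ) :
    ∃ r : Fin d → ℤ, (∀ j, 0 ≤ r j ∧ r j < D j) ∧ InL D A (x - r) := by
  have key : ∀ k : ℕ, ∃ r : Fin d → ℤ, (∀ j : Fin d, j.val < k → 0 ≤ r j ∧ r j < D j) ∧
      InL D A (x - r) := by
    intro k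
    induction k with
    | zero => exact ⟨x, by simp, by simpa using inL_zero⟩
    | succ k ih =>
      obtain ⟨r, h1, h2⟩ := ih
      by_cases hk : k < d
      · refine ⟨r - (r ⟨k, hk⟩ / D ⟨k, hk⟩) • row D A ⟨k, hk⟩, fun j hj => ?_,
          (h2.add ((inL_row ⟨k, hk⟩).smul (r ⟨k, hk⟩ / D ⟨k, hk⟩))).of_eq (by abel)⟩
        rcases Nat.lt_succ_iff_lt_or_eq.1 hj with h | h
        · have h3 : j ≠ ⟨k, hk⟩ := fun e => by rw [e] at h; exact lt_irrefl _ h
          have h4 : ¬ (⟨k, hk⟩ : Fin d) < j := not_lt.2 (Fin.le_def.2 h.le)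
          simpa [row, h3, h4] using h1 j h
        · obtain rfl : j = ⟨k, hk⟩ := Fin.ext h
          have e : (r - (r ⟨k, hk⟩ / D ⟨k, hk⟩) • row D A ⟨k, hk⟩) ⟨k, hk⟩ =
              r ⟨k, hk⟩ % D ⟨k, hk⟩ := by
            simp [row, Int.emod_def, mul_comm]
          rw [e]
          exact ⟨Int.emod_nonneg _ (hD _).ne', Int.emod_lt_of_pos _ (hD _)⟩
      · exact ⟨r, fun j _ => h1 j (by have := j.2; omega), h2⟩
  obtain ⟨r, h1, h2⟩ := key d
  exact ⟨r, fun j => h1 j j.2, h2⟩

/-- a lattice vector that is small before `k` and lies in `[-D k, 0)` at `k` -/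
lemma lead {τ : Fin d → ℤ} (h : InL D A τ) (k : Fin d) (hs : ∀ j, j < k → |τ j| < D j)
    (h1 : -D k ≤ τ k) (h2 : τ k < 0) :
    ∃ c : Fin d → ℤ, (∀ j, j ≤ k → c j = 0) ∧ τ + row D A k = ∑ i, c i • row D A i := by
  obtain ⟨c, rfl⟩ := h
  have z := coef_zero (D := D) (A := A) c k fun j hj => hs j hj
  rw [coord c k fun i hi => z i hi] at h1 h2
  have hD : 0 < D k := by
    by_contra hh
    push Not at hh
    linarith
  have e : c k = -1 := by
    have : (c k + 1) = 0 := mul_small (e := D k) (by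
      rw [abs_lt]; constructor <;> linarith)
    linarith
  refine ⟨c + Pi.single k 1, fun j hj => ?_, ?_⟩
  · rcases hj.lt_or_eq with h | rfl
    · simp [z j h, Pi.single_apply, h.ne]
    · simp [e]
  · simp only [Pi.add_apply, add_smul, sum_add_distrib]
    congr 1
    rw [sum_eq_single k] <;> simp +contextual [Pi.single_apply]

/-- rows agree as soon as both lattices contain suitable common vectors -/
lemma rows_eq {A' : Fin d → Fin d → ℤ} (hD : ∀ j, 0 < D j)
    (hA : ∀ i j, i < j → |A i j - A' i j| < D j)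
    (h : ∀ k : Fin d, ∃ τ, InL D A τ ∧ InL D A' τ ∧ (∀ j, j < k → |τ j| < D j) ∧
      -D k ≤ τ k ∧ τ k < 0) : ∀ k, row D A k = row D A' k := by
  intro k
  induction k using WellFoundedGT.induction with
  | ind k ih =>
    obtain ⟨τ, h1, h2, h3, h4, h5⟩ := h k
    obtain ⟨c, hc, e⟩ := lead h2 k h3 h4 h5
    have h6 : InL D A (τ + row D A' k) := ⟨c, by
      rw [e]
      refine sum_congr rfl fun i _ => ?_
      rcases le_or_gt i k with hi | hi
      · simp [hc i hi]
      · rw [ih i hi]⟩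
    have h7 := small_zero ((h1.add (inL_row k)).sub h6) fun j => by
      simp only [Pi.sub_apply, Pi.add_apply, add_sub_add_left_eq_sub, row]
      split_ifs with a b
      · simpa using hD j
      · exact hA k j b
      · simpa using hD j
    rwa [add_sub_add_left_eq_sub, sub_eq_zero] at h7

end Pool.Agent.H.MP_13da68_co
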