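import Mathlib
import Pool.Agent.H.MP_13da68_co.Defs
import Pool.Agent.H.MP_13da68_co.Lat

set_option autoImplicit false

namespace Pool.Agent.H.MP_13da68_co

open Finset

variable {m : ℕ}

def dg (m s n : ℕ) : Fin (m + 1) → ℤ := Fin.cons (s : ℤ) fun _ => (n : ℤ)

def base {s n : ℕ} (i : Fin s) (y : Fin m → Fin n) : Fin (m + 1) → ℤ :=
  Fin.cons ((i : ℕ) + 1 : ℤ) fun k => ((y k : ℕ) + 1 : ℤ)

def Slab (s n : ℕ) (j : ℤ) (q : Fin (m + 1) → ℤ) : Prop :=
  (j * s + 1 ≤ q 0 ∧ q 0 ≤ j * s + s) ∧ ∀ k : Fin m, 1 ≤ q k.succ ∧ q k.succ ≤ n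

variable {s n : ℕ} {A : Fin (m + 1) → Fin (m + 1) → ℤ}

lemma dg_pos (hs : 0 < s) (hn : 0 < n) (j : Fin (m + 1)) : 0 < dg m s n j := by
  refine Fin.cases ?_ (fun k => ?_) j <;> simpa [dg]

lemma slab_ex (hs : 0 < s) (hn : 0 < n) (A : Fin (m + 1) → Fin (m + 1) → ℤ) (j : ℤ)
    (x : Fin (m + 1) → ℤ) : ∃ q, Slab s n j q ∧ InL (dg m s n) A (q - x) := by
  obtain ⟨r, h1, h2⟩ := exists_red (A := A) (dg_pos (m := m) hs hn)
    (x - Fin.cons (j * s + 1) fun _ => 1)
  refine ⟨r + Fin.cons (j * s + 1) fun _ => 1, ⟨?_, fun k => ?_⟩, h2.neg.of_eq (by abel)⟩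
  · have := h1 0
    simp only [dg, Fin.cons_zero, Pi.add_apply] at this ⊢
    omega
  · have := h1 k.succ
    simp only [dg, Fin.cons_succ, Pi.add_apply] at this ⊢
    omega

lemma slab_uniq {j : ℤ} {q q' : Fin (m + 1) → ℤ} (h : Slab s n j q) (h' : Slab s n j q')
    (e : InL (dg m s n) A (q - q')) : q = q' := by
  refine sub_eq_zero.1 (small_zero e fun k => ?_)
  refine Fin.cases ?_ (fun k => ?_) k
  · have := h.1
    have := h'.1
    simp only [dg, Fin.cons_zero, Pi.sub_apply, abs_lt]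
    omega
  · have := h.2 k
    have := h'.2 k
    simp only [dg, Fin.cons_succ, Pi.sub_apply, abs_lt]
    omega

lemma base_slab (i : Fin s) (y : Fin m → Fin n) : Slab s n 0 (base i y) := by
  refine ⟨?_, fun k => ?_⟩
  · have := i.2
    simp only [base, Fin.cons_zero]
    omega
  · have := (y k).2
    simp only [base, Fin.cons_succ]
    omega

lemma slab_base {q : Fin (m + 1) → ℤ} (h : Slab s n 0 q) :
    ∃ (i : Fin s) (y : Fin m → Fin n), q = base i y := by
  refine ⟨⟨(q 0 - 1).toNat, by have := h.1; omega⟩,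
    fun k => ⟨(q k.succ - 1).toNat, by have := h.2 k; omega⟩, funext fun k => ?_⟩
  refine Fin.cases ?_ (fun k => ?_) k
  · have := h.1
    simp only [base, Fin.cons_zero]
    omega
  · have := h.2 k
    simp only [base, Fin.cons_succ]
    omega

lemma base_inj {i i' : Fin s} {y y' : Fin m → Fin n} (h : base i y = base i' y') :
    i = i' ∧ y = y' := by
  refine ⟨Fin.ext ?_, funext fun k => Fin.ext ?_⟩
  · have := congrFun h 0
    simp only [base, Fin.cons_zero] at this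
    omega
  · have := congrFun h k.succ
    simp only [base, Fin.cons_succ] at this
    omega

lemma first {j : ℤ} {q : Fin (m + 1) → ℤ} {i : Fin s} {y : Fin m → Fin n} (h : Slab s n j q)
    (e : InL (dg m s n) A (q - base i y)) : q 0 = (i : ℕ) + 1 + j * s := by
  obtain ⟨c, e⟩ := e
  have e0 := congrFun e 0
  rw [coord c 0 (by simp)] at e0
  simp only [base, dg, Fin.cons_zero, Pi.sub_apply] at e0
  have h1 := h.1
  have h2 := i.2
  have : c 0 - j = 0 := mul_small (e := s) (by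
    rw [abs_lt, sub_mul]; omega)
  obtain rfl : j = c 0 := by omega
  omega

open Classical in
noncomputable def sg (s n : ℕ) (A : Fin (m + 1) → Fin (m + 1) → ℤ) (j : ℤ)
    (x : Fin (m + 1) → ℤ) : Fin (m + 1) → ℤ :=
  if h : ∃ q, Slab s n j q ∧ InL (dg m s n) A (q - x) then h.choose else 0

lemma sg_spec (hs : 0 < s) (hn : 0 < n) (A : Fin (m + 1) → Fin (m + 1) → ℤ) (j : ℤ)
    (x : Fin (m + 1) → ℤ) :
    Slab s n j (sg s n A j x) ∧ InL (dg m s n) A (sg s n A j x - x) := by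
  have h := slab_ex hs hn A j x
  rw [sg, dif_pos h]
  exact h.choose_spec

noncomputable def SS (A : Fin (m + 1) → Fin (m + 1) → ℤ)
    (c : Fin s → (Fin m → Fin n) → Fin 3) : Finset (Fin (m + 1) → ℤ) :=
  univ.image fun r : Fin s × (Fin m → Fin n) => sg s n A (c r.1 r.2 : ℕ) (base r.1 r.2)

lemma mem_SS {c : Fin s → (Fin m → Fin n) → Fin 3} {a : Fin (m + 1) → ℤ} :
    a ∈ SS A c ↔ ∃ i y, sg s n A (c i y : ℕ) (base i y) = a := by
  simp [SS]

lemma same (hs : 0 < s) (hn : 0 < n) {i i' : Fin s} {y y' : Fin m → Fin n} {j j' : ℤ}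
    (e : InL (dg m s n) A (sg s n A j (base i y) - sg s n A j' (base i' y'))) :
    i = i' ∧ y = y' :=
  base_inj (slab_uniq (base_slab i y) (base_slab i' y')
    (((e.sub (sg_spec hs hn A j _).2).add (sg_spec hs hn A j' _).2).of_eq (by abel)))

lemma trans (hs : 0 < s) (hn : 0 < n) {c : Fin s → (Fin m → Fin n) → Fin 3}
    {a b : Fin (m + 1) → ℤ} (ha : a ∈ SS A c) (hb : b ∈ SS A c)
    (e : InL (dg m s n) A (a - b)) : a = b := by
  obtain ⟨i, y, rfl⟩ := mem_SS.1 ha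
  obtain ⟨i', y', rfl⟩ := mem_SS.1 hb
  obtain ⟨rfl, rfl⟩ := same hs hn e
  rfl

lemma tiles (hs : 0 < s) (hn : 0 < n) (c : Fin s → (Fin m → Fin n) → Fin 3) :
    Tiles (SS A c) := by
  refine ⟨{τ | InL (dg m s n) A τ}, fun x => ?_⟩
  obtain ⟨q, h1, h2⟩ := slab_ex hs hn A 0 x
  obtain ⟨i, y, rfl⟩ := slab_base h1
  have h3 := (sg_spec hs hn A (c i y : ℕ) (base i y)).2
  have h4 : sg s n A (c i y : ℕ) (base i y) ∈ SS A c := mem_SS.2 ⟨i, y, rfl⟩
  generalize sg s n A (c i y : ℕ) (base i y) = a at h3 h4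
  refine ⟨(a, x - a), ⟨h4, (h3.add h2).neg.of_eq (by abel), by simp⟩, ?_⟩
  rintro ⟨b, τ⟩ ⟨h5, h6, rfl⟩
  obtain rfl : a = b := trans hs hn h4 h5 (((h3.add h2).add h6).of_eq (by simp only; abel))
  simp

lemma sub_cube (hs : 0 < s) (c : Fin s → (Fin m → Fin (3 * s)) → Fin 3) :
    SS A c ⊆ cube (3 * s) (m + 1) := by
  intro a ha
  obtain ⟨i, y, rfl⟩ := mem_SS.1 ha
  have h := (sg_spec hs (show 0 < 3 * s by omega) A (c i y : ℕ) (base i y)).1
  generalize sg s (3 * s) A (c i y : ℕ) (base i y) = a at h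
  simp only [cube, Fintype.mem_piFinset, mem_Icc]
  intro k
  refine Fin.cases ?_ (fun k => h.2 k) k
  have h1 := h.1
  have h2 : (c i y : ℕ) = 0 ∨ (c i y : ℕ) = 1 ∨ (c i y : ℕ) = 2 := by omega
  rcases h2 with h2 | h2 | h2 <;> rw [h2] at h1 <;> push_cast at h1 ⊢ <;> omega

lemma inj_c (hs : 0 < s) (hn : 0 < n) {c c' : Fin s → (Fin m → Fin n) → Fin 3}
    (h : SS A c = SS A c') : c = c' := by
  funext i y
  obtain ⟨i', y', e⟩ := mem_SS.1 (h ▸ (mem_SS.2 ⟨i, y, rfl⟩ : _ ∈ SS A c))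
  obtain ⟨rfl, rfl⟩ := same hs hn (inL_zero.of_eq (sub_eq_zero.2 e))
  have h1 := first (sg_spec hs hn A (c i' y' : ℕ) (base i' y')).1 (sg_spec hs hn A _ _).2
  have h2 := first (sg_spec hs hn A (c' i' y' : ℕ) (base i' y')).1 (sg_spec hs hn A _ _).2
  rw [e, h1, add_right_inj, mul_eq_mul_right_iff] at h2
  exact Fin.ext (by omega)

/-- the map to the middle slab determines the lattice -/
lemma cross (hs : 0 < s) (hn : 0 < n) {A' : Fin (m + 1) → Fin (m + 1) → ℤ}
    (hA : ∀ i j, i < j → 1 ≤ A i j ∧ A i j < n) (hA' : ∀ i j, i < j → 1 ≤ A' i j ∧ A' i j < n)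
    (i : Fin s) (h : ∀ y : Fin m → Fin n, sg s n A 1 (base i y) = sg s n A' 1 (base i y)) :
    ∀ k, row (dg m s n) A k = row (dg m s n) A' k := by
  have sp := fun y : Fin m → Fin n => sg_spec hs hn A 1 (base i y)
  have sp' : ∀ y : Fin m → Fin n, InL (dg m s n) A' (sg s n A 1 (base i y) - base i y) :=
    fun y => h y ▸ (sg_spec hs hn A' 1 (base i y)).2
  have f : ∀ y : Fin m → Fin n, (sg s n A 1 (base i y) - base i y) 0 = s := fun y => by
    rw [Pi.sub_apply, first (sp y).1 (sp y).2]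
    simp [base]
  let o : Fin m → Fin n := fun _ => ⟨0, hn⟩
  have e0 : sg s n A 1 (base i o) - base i o - row (dg m s n) A 0 = 0 := by
    refine small_zero ((sp o).2.sub (inL_row 0)) fun k => ?_
    refine Fin.cases ?_ (fun k => ?_) k
    · rw [Pi.sub_apply, f o]
      simp [row, dg, hs]
    · have := (sp o).1.2 k
      have := hA 0 k.succ (Fin.succ_pos k)
      simp only [Pi.sub_apply, row, dg, base, o, Fin.cons_succ, Fin.succ_ne_zero, if_false,
        Fin.succ_pos, if_true, abs_lt] at *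
      omega
  refine rows_eq (dg_pos hs hn) (fun a b hab => ?_) fun k => ?_
  · obtain ⟨b, rfl⟩ := Fin.exists_succ_eq.2 (ne_of_gt (lt_of_le_of_lt (Fin.zero_le a) hab))
    have := hA a _ hab
    have := hA' a _ hab
    simp only [dg, Fin.cons_succ, abs_lt]
    omega
  refine Fin.cases ?_ (fun k => ?_) k
  · refine ⟨_, (sp o).2.neg, (sp' o).neg, by simp, ?_, ?_⟩ <;>
      rw [Pi.neg_apply, f o] <;> simp [dg, hs]
  · have a := hA 0 k.succ (Fin.succ_pos k)
    let y : Fin m → Fin n := Function.update o k ⟨(n - A 0 k.succ).toNat, by omega⟩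
    have r : ∀ l : Fin m, (sg s n A 1 (base i o) - base i o) l.succ = A 0 l.succ := fun l => by
      rw [sub_eq_zero.1 e0]
      simp [row, Fin.succ_ne_zero]
    refine ⟨_, (sp y).2.sub (sp o).2, (sp' y).sub (sp' o), fun j hj => ?_, ?_⟩
    · revert hj
      refine Fin.cases (fun _ => ?_) (fun l hl => ?_) j
      · rw [Pi.sub_apply, f o, f y]
        simp [dg, hs]
      · have b := hA 0 l.succ (Fin.succ_pos l)
        have := (sp y).1.2 l
        have hl' : l ≠ k := fun e => by simp [e] at hl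
        have y0 : (y l : ℕ) = 0 := by simp [y, o, hl']
        rw [Pi.sub_apply, r l]
        simp only [Pi.sub_apply, dg, base, Fin.cons_succ, abs_lt, y0] at *
        omega
    · have := (sp y).1.2 k
      have y0 : ((y k : ℕ) : ℤ) = n - A 0 k.succ := by
        simp only [y, Function.update_self]
        omega
      rw [Pi.sub_apply, r k]
      simp only [Pi.sub_apply, dg, base, Fin.cons_succ, y0] at *
      omega

lemma pair (hs : 0 < s) (hn : 0 < n) {A' : Fin (m + 1) → Fin (m + 1) → ℤ}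
    (hA : ∀ i j, i < j → 1 ≤ A i j ∧ A i j < n) (hA' : ∀ i j, i < j → 1 ≤ A' i j ∧ A' i j < n)
    (hne : ¬ ∀ k, row (dg m s n) A k = row (dg m s n) A' k) (i : Fin s) :
    ∃ y z : Fin m → Fin n, y ≠ z ∧ ∀ c c' : Fin s → (Fin m → Fin n) → Fin 3,
      SS A c = SS A' c' → ¬ (c i y = 1 ∧ c i z = 0) := by
  obtain ⟨y, hy⟩ := not_forall.1 fun h => hne (cross hs hn hA hA' i h)
  have sp := sg_spec hs hn A 1 (base i y)
  obtain ⟨q, h1, h2⟩ := slab_ex hs hn A' 0 (sg s n A 1 (base i y))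
  obtain ⟨i', z, rfl⟩ := slab_base h1
  have h3 : InL (dg m s n) A' (sg s n A 1 (base i y) - base i' z) := h2.neg.of_eq (by abel)
  have f := first sp.1 sp.2
  obtain rfl : i' = i := Fin.ext (by have := first sp.1 h3; omega)
  refine ⟨y, z, ?_, fun c c' e ⟨c1, c0⟩ => ?_⟩
  · rintro rfl
    have sp' := sg_spec hs hn A' 1 (base i' y)
    exact hy (slab_uniq sp.1 sp'.1 ((h3.sub sp'.2).of_eq (by abel)))
  · have m1 : sg s n A 1 (base i' y) ∈ SS A c := mem_SS.2 ⟨i', y, by rw [c1]; rfl⟩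
    have m0 : base i' z ∈ SS A c := mem_SS.2 ⟨i', z, by
      rw [c0]
      have sp' := sg_spec hs hn A 0 (base i' z)
      exact slab_uniq sp'.1 h1 sp'.2⟩
    rw [e] at m1 m0
    rw [trans hs hn m1 m0 h3] at f
    simp only [base, Fin.cons_zero] at f
    omega

end Pool.Agent.H.MP_13da68_co
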