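import Mathlib
import Pool.Agent.H.MP_13da68_co.Defs
import Pool.Agent.H.MP_13da68_co.Main

set_option autoImplicit false

namespace Pool.Agent.H.MP_13da68_co

open Finset

lemma card_pat {X : Type} [Fintype X] [DecidableEq X] {y z : X} (h : y ≠ z) :
    9 * #{g : X → Fin 3 | ¬ (g y = 1 ∧ g z = 0)} = 8 * 3 ^ Fintype.card X := by
  have h1 : ({g : X → Fin 3 | g y = 1 ∧ g z = 0} : Finset (X → Fin 3)) =
      Fintype.piFinset fun x => if x = y then {1} else if x = z then {0} else univ := by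
    ext g
    simp only [mem_filter, mem_univ, true_and, Fintype.mem_piFinset]
    refine ⟨fun ⟨a, b⟩ x => ?_, fun a => ⟨by simpa using a y, by simpa [h.symm] using a z⟩⟩
    split_ifs with c e
    · simp [c, a]
    · simp [e, b]
    · simp
  have hz : z ∈ (univ : Finset X).erase y := by simp [h.symm]
  have h2 : 9 * #{g : X → Fin 3 | g y = 1 ∧ g z = 0} = 3 ^ Fintype.card X := by
    rw [h1, Fintype.card_piFinset, ← card_univ, ← prod_const, ← mul_prod_erase _ _ (mem_univ y),
      ← mul_prod_erase _ _ hz, ← mul_prod_erase _ _ (mem_univ y), ← mul_prod_erase _ _ hz]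
    rw [prod_congr rfl (g := fun _ => 3) fun x hx => by
      simp only [mem_erase] at hx
      simp [hx.1, hx.2.1]]
    simp [h.symm]
    ring
  have h3 := card_filter_add_card_filter_not (s := (univ : Finset (X → Fin 3)))
    fun g => g y = 1 ∧ g z = 0
  rw [card_univ, Fintype.card_fun, Fintype.card_fin] at h3
  omega

/-- the parameters: an entry in `1, …, n - 1` for each position above the diagonal -/
abbrev Par (d n : ℕ) : Type := {x : Fin d × Fin d // x.1 < x.2} → Fin (n - 1)

def mat {d n : ℕ} (p : Par d n) : Fin d → Fin d → ℤ :=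
  fun i j => if h : i < j then ((p ⟨(i, j), h⟩ : ℕ) + 1 : ℤ) else 0

lemma mat_bd {d n : ℕ} (p : Par d n) (i j : Fin d) (h : i < j) :
    1 ≤ mat p i j ∧ mat p i j < n := by
  have := (p ⟨(i, j), h⟩).2
  simp only [mat, dif_pos h]
  omega

lemma mat_inj {d n : ℕ} {D : Fin d → ℤ} {p p' : Par d n}
    (h : ∀ k, row D (mat p) k = row D (mat p') k) : p = p' := by
  funext ⟨⟨i, j⟩, hij⟩
  have := congrFun (h i) j
  have hij' : i < j := hij
  simp only [row, hij'.ne', if_false, hij', if_true, mat, dif_pos] at this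
  exact Fin.ext (by omega)

lemma card_par (d n : ℕ) : Fintype.card (Par d n) = (n - 1) ^ d.choose 2 := by
  rw [Fintype.card_fun, Fintype.card_fin, Fintype.card_subtype, Fintype.card_product_filter_lt,
    Fintype.card_fin]

open Classical in
lemma card_bad {m s n : ℕ} (hs : 0 < s) (hn : 0 < n) {p p' : Par (m + 1) n} (h : p' ≠ p) :
    9 ^ s * #{c : Fin s → (Fin m → Fin n) → Fin 3 | ∃ c' : Fin s → (Fin m → Fin n) → Fin 3,
      SS (mat p) c = SS (mat p') c'} ≤ 8 ^ s * 3 ^ (s * n ^ m) := by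
  choose y z h1 h2 using pair hs hn (mat_bd p) (mat_bd p') fun e => h (mat_inj e).symm
  refine (Nat.mul_le_mul_left _ (card_le_card (t := Fintype.piFinset fun i =>
    ({g | ¬ (g (y i) = 1 ∧ g (z i) = 0)} : Finset ((Fin m → Fin n) → Fin 3))) ?_)).trans ?_
  · intro c hc
    obtain ⟨c', e⟩ := (mem_filter.1 hc).2
    exact Fintype.mem_piFinset.2 fun i => mem_filter.2 ⟨mem_univ _, h2 i c c' e⟩
  · have e : (9 : ℕ) ^ s = ∏ _i : Fin s, 9 := by simp
    rw [Fintype.card_piFinset, e, ← prod_mul_distrib, prod_congr rfl fun i _ => card_pat (h1 i)]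
    simp [mul_pow, ← pow_mul, mul_comm]

open Classical in
lemma count {m s : ℕ} (hs : 0 < s) (h : 2 * (3 * s - 1) ^ (m + 1).choose 2 * 8 ^ s ≤ 9 ^ s) :
    (3 * s - 1) ^ (m + 1).choose 2 * 3 ^ (s * (3 * s) ^ m) ≤ 2 * t (3 * s) (m + 1) := by
  have hn : 0 < 3 * s := by omega
  let G : Par (m + 1) (3 * s) → Finset (Fin s → (Fin m → Fin (3 * s)) → Fin 3) := fun p =>
    {c | ∀ p' ≠ p, ∀ c' : Fin s → (Fin m → Fin (3 * s)) → Fin 3, SS (mat p) c ≠ SS (mat p') c'}
  have hG : ∀ p, 3 ^ (s * (3 * s) ^ m) ≤ 2 * #(G p) := fun p => by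
    let B : Par (m + 1) (3 * s) → Finset (Fin s → (Fin m → Fin (3 * s)) → Fin 3) := fun p' =>
      {c | ∃ c' : Fin s → (Fin m → Fin (3 * s)) → Fin 3, SS (mat p) c = SS (mat p') c'}
    have h1 : univ ⊆ G p ∪ (univ.erase p).biUnion B := fun c _ => by
      by_contra hc
      simp only [mem_union, mem_biUnion, mem_erase, mem_univ, and_true, G, B, mem_filter,
        true_and, not_or, not_exists, not_and] at hc
      exact hc.1 fun p' a c' => hc.2 p' a c'
    have h2 := (card_le_card h1).trans ((card_union_le _ _).trans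
      (Nat.add_le_add_left card_biUnion_le _))
    have h3 : 9 ^ s * ∑ p' ∈ univ.erase p, #(B p') ≤
        (3 * s - 1) ^ (m + 1).choose 2 * (8 ^ s * 3 ^ (s * (3 * s) ^ m)) := by
      rw [mul_sum]
      refine (sum_le_card_nsmul _ _ _ fun p' hp => card_bad hs hn (mem_erase.1 hp).1).trans ?_
      rw [smul_eq_mul, ← card_par]
      exact Nat.mul_le_mul_right _ (card_le_univ _)
    have h4 : #(univ : Finset (Fin s → (Fin m → Fin (3 * s)) → Fin 3)) =
        3 ^ (s * (3 * s) ^ m) := by
      simp [← pow_mul, mul_comm]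
    rw [h4] at h2
    have h5 : 0 < 9 ^ s := by positivity
    generalize 3 ^ (s * (3 * s) ^ m) = N at *
    generalize ∑ p' ∈ univ.erase p, #(B p') = b at *
    have h6 : 9 ^ s * (2 * b) ≤ 9 ^ s * N := by
      have := Nat.mul_le_mul_right N h
      nlinarith
    have := Nat.le_of_mul_le_mul_left h6 h5
    omega
  have h1 : #(univ.sigma G) ≤ t (3 * s) (m + 1) := by
    refine card_le_card_of_injOn (fun x => SS (mat x.1) x.2) (fun x _ => ?_) ?_
    · exact mem_coe.2 (mem_filter.2 ⟨mem_powerset.2 (sub_cube hs _), tiles hs hn _⟩)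
    · rintro ⟨p, c⟩ hx ⟨p', c'⟩ - e
      obtain rfl : p' = p := by
        by_contra a
        have b := (mem_sigma.1 (mem_coe.1 hx)).2
        simp only [G, mem_filter, mem_univ, true_and] at b
        exact b p' a c' e
      obtain rfl : c = c' := inj_c hs hn e
      rfl
  rw [card_sigma] at h1
  refine le_trans ?_ (Nat.mul_le_mul_left 2 h1)
  rw [mul_sum, ← card_par, ← card_univ, ← smul_eq_mul]
  exact card_nsmul_le_sum _ _ _ fun p _ => hG p

end Pool.Agent.H.MP_13da68_co
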